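import Pool.Agent.V11325.ParkProb

/-!
There is a transitive, unimodular, infinitely accessible triple for which the expected number of
visits in the subcritical parking process is of the order of `log (1 / (1 / 2 - p))`, so that it
has no power law at `p = 1 / 2` (negative answer to the second question).
-/

namespace Pool.Agent.Results.MP_971c94_pr.LogOrder

open MeasureTheory Filter Topology Pool.Agent.TH996.Parking Pool.Agent.V11325.Park

theorem aux {E : ℝ → ℝ} (h0 : ∀ p, 0 ≤ E p)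
    (h : ∀ p, 0 ≤ p → p < 1 / 2 → E p ≤ 27 + Real.log (1 / (1 - 2 * p))) {γ : ℝ} (hγ : 0 < γ) :
    Tendsto (fun p => E p * (1 / 2 - p) ^ γ) (𝓝[<] (1 / 2)) (𝓝 0) := by
  have h1 : Tendsto (fun p : ℝ => 1 / 2 - p) (𝓝[<] (1 / 2)) (𝓝[>] 0) := by
    refine tendsto_nhdsWithin_iff.2 ⟨?_, ?_⟩
    · have : Tendsto (fun p : ℝ => 1 / 2 - p) (𝓝 (1 / 2)) (𝓝 (1 / 2 - 1 / 2)) :=
        tendsto_const_nhds.sub tendsto_id
      rw [sub_self] at this
      exact this.mono_left nhdsWithin_le_nhds
    · filter_upwards [self_mem_nhdsWithin] with p hp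
      have : p < 1 / 2 := hp
      show 0 < 1 / 2 - p
      linarith
  have h2 : Tendsto (fun t : ℝ => (27 - Real.log 2) * t ^ γ - Real.log t * t ^ γ) (𝓝[>] 0)
      (𝓝 0) := by
    have h3 : Tendsto (fun t : ℝ => t ^ γ) (𝓝[>] 0) (𝓝 0) := by
      have h4 : Tendsto (fun t : ℝ => t ^ γ) (𝓝 0) (𝓝 ((0 : ℝ) ^ γ)) :=
        (Real.continuousAt_rpow_const 0 γ (Or.inr hγ.le)).tendsto
      rw [Real.zero_rpow hγ.ne'] at h4
      exact h4.mono_left nhdsWithin_le_nhds
    have h5 := (h3.const_mul (27 - Real.log 2)).sub (tendsto_log_mul_rpow_nhdsGT_zero hγ)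
    simpa using h5
  refine squeeze_zero' ?_ ?_ (h2.comp h1)
  · filter_upwards [self_mem_nhdsWithin] with p hp
    have : p < 1 / 2 := hp
    exact mul_nonneg (h0 p) (Real.rpow_nonneg (by linarith) _)
  · have h3 : ∀ᶠ p : ℝ in 𝓝[<] (1 / 2), 0 < p :=
      (eventually_gt_nhds (by norm_num : (0 : ℝ) < 1 / 2)).filter_mono nhdsWithin_le_nhds
    filter_upwards [self_mem_nhdsWithin, h3] with p hp hp0
    have hp1 : p < 1 / 2 := hp
    have h4 : 27 + Real.log (1 / (1 - 2 * p)) = 27 - Real.log 2 - Real.log (1 / 2 - p) := by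
      have h5 : 1 - 2 * p = 2 * (1 / 2 - p) := by ring
      rw [one_div, Real.log_inv, h5, Real.log_mul (by norm_num) (by linarith)]
      ring
    have h5 := mul_le_mul_of_nonneg_right (h p hp0.le hp1)
      (Real.rpow_nonneg (by linarith : 0 ≤ 1 / 2 - p) γ)
    rw [h4] at h5
    refine h5.trans (le_of_eq ?_)
    simp only [Function.comp]
    ring

/-- **Theorem (negative answer to Q2).** There is a transitive, unimodular, infinitely accessible
triple `(G, K, Γ)` on a connected locally finite graph such that at every density `p < 1 / 2` the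
expected number of visits to a vertex is finite and lies between
`(log (1 / (1 - 2 p)) - log 2) / (2 log 2)` and `27 + log (1 / (1 - 2 p))`; so for no `γ > 0` and
no `C > 0` does it satisfy `E_p V * (1 / 2 - p) ^ γ → C` as `p ↗ 1 / 2`. -/
theorem result : ∃ (V : Type) (_ : MeasurableSpace V) (_ : DiscreteMeasurableSpace V)
    (G : SimpleGraph V) (_ : G.LocallyFinite) (K : V → V → ℝ) (Γ : Subgroup (Equiv.Perm V)),
    G.Connected ∧ IsKernel G K ∧ IsAut G K Γ ∧ IsTransitive Γ ∧ IsUnimodular Γ ∧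
    IsInfinitelyAccessible G K Γ ∧
    ∀ x : V,
      (∀ p : ℝ, 0 ≤ p → p < 1 / 2 →
        expectedVisits G K p x < ⊤ ∧
        (Real.log (1 / (1 - 2 * p)) - Real.log 2) / (2 * Real.log 2) ≤
          (expectedVisits G K p x).toReal ∧
        (expectedVisits G K p x).toReal ≤ 27 + Real.log (1 / (1 - 2 * p))) ∧
      ∀ γ : ℝ, 0 < γ → ∀ C : ℝ, 0 < C →
        ¬ Tendsto (fun p : ℝ => (expectedVisits G K p x).toReal * (1 / 2 - p) ^ γ)
          (𝓝[<] (1 / 2)) (𝓝 C) := by
  refine ⟨W, inferInstance, inferInstance, tree, inferInstance, ker, trans, tree_connected,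
    isKernel, isAut, isTransitive, isUnimodular, isInfinitelyAccessible, fun x => ?_⟩
  have hlog : ∀ p : ℝ, 0 ≤ p → p < 1 / 2 → 0 ≤ 27 + Real.log (1 / (1 - 2 * p)) := by
    intro p hp0 hp1
    have : 0 ≤ Real.log (1 / (1 - 2 * p)) := by
      refine Real.log_nonneg ?_
      rw [le_div_iff₀ (by linarith)]
      linarith
    linarith
  have hup : ∀ p : ℝ, 0 ≤ p → p < 1 / 2 →
      (expectedVisits tree ker p x).toReal ≤ 27 + Real.log (1 / (1 - 2 * p)) := fun p hp0 hp1 =>
    ENNReal.toReal_le_of_le_ofReal (hlog p hp0 hp1) (visits_le hp0 hp1 x)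
  refine ⟨fun p hp0 hp1 => ⟨(visits_le hp0 hp1 x).trans_lt ENNReal.ofReal_lt_top, ?_,
    hup p hp0 hp1⟩, fun γ hγ C hC hlim => ?_⟩
  · have h2 : 0 < Real.log 2 := Real.log_pos (by norm_num)
    rw [div_le_iff₀ (by positivity)]
    have := visits_ge hp0 hp1 x
    linarith
  · have h1 := aux (E := fun p => (expectedVisits tree ker p x).toReal)
      (fun p => ENNReal.toReal_nonneg) hup hγ
    have h2 := tendsto_nhds_unique hlim h1
    exact hC.ne' h2

end Pool.Agent.Results.MP_971c94_pr.LogOrder
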